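import Pool.Agent.W93.TD.Stm

/-!
Project TD (helper93), part NOANN: no annihilators of degree below `k`.
-/

set_option autoImplicit false

namespace Pool.Agent.W357.TD

open Finset W93.TD

lemma wt_zero : wt 0 = 0 := by simp [wt]

lemma wt_rec (n : ℕ) : wt n = n % 2 + wt (n / 2) := by
  rcases Nat.eq_zero_or_pos n with rfl | h
  · simp [wt]
  · unfold wt
    rw [Nat.digits_def' (by norm_num) h, List.sum_cons]

lemma wt_compl : ∀ (k i : ℕ), i < 2 ^ k → wt i + wt (2 ^ k - 1 - i) = k := by
  intro k
  induction k with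
  | zero =>
    intro i hi
    have : i = 0 := by simpa using hi
    subst this
    simp [wt]
  | succ k ih =>
    intro i hi
    rw [pow_succ] at hi
    have h1 : i / 2 < 2 ^ k := by omega
    have h2 := ih _ h1
    rw [wt_rec i, wt_rec (2 ^ (k + 1) - 1 - i)]
    have h3 : (2 ^ (k + 1) - 1 - i) / 2 = 2 ^ k - 1 - i / 2 := by
      rw [pow_succ]
      omega
    have h4 : (2 ^ (k + 1) - 1 - i) % 2 + i % 2 = 1 := by
      rw [pow_succ]
      omega
    rw [h3]
    omega

lemma wt_pos {n : ℕ} (h : 0 < n) : 0 < wt n := by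
  induction n using Nat.strong_induction_on with
  | _ n ih =>
    rw [wt_rec]
    rcases Nat.eq_zero_or_pos (n / 2) with h1 | h1
    · omega
    · have := ih (n / 2) (by omega) h1
      omega

lemma wt_lt {k t : ℕ} (h : t < 2 ^ k - 1) : wt t + 1 ≤ k := by
  have h1 := wt_compl k t (by omega)
  have h2 : 0 < wt (2 ^ k - 1 - t) := wt_pos (by omega)
  omega

lemma wt_full (k : ℕ) : wt (2 ^ k - 1) = k := by
  have h1 := wt_compl k 0 (by positivity)
  rw [wt_zero, Nat.sub_zero, Nat.zero_add] at h1
  exact h1

lemma poly_zero {k : ℕ} {F : Type} [Field F] [Fintype F] (hq : Fintype.card F = 2 ^ k)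
    (b : ℕ → F) (h : ∀ x : F, ∑ i ∈ range (2 ^ k), b i * x ^ i = 0) : ∀ i < 2 ^ k, b i = 0 := by
  intro i hi
  set p : Polynomial F := ∑ i ∈ range (2 ^ k), Polynomial.monomial i (b i) with hp
  have h1 : p = 0 := by
    apply Polynomial.eq_zero_of_natDegree_lt_card_of_eval_eq_zero' p (Finset.univ : Finset F)
    · intro x _
      rw [hp, Polynomial.eval_finsetSum]
      simp only [Polynomial.eval_monomial]
      exact h x
    · rw [Finset.card_univ, hq]
      rw [hp]
      refine lt_of_le_of_lt (Polynomial.natDegree_sum_le_of_forall_le (n := 2 ^ k - 1) _ _ ?_) ?_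
      · intro j hj
        refine (Polynomial.natDegree_monomial_le _).trans ?_
        have := Finset.mem_range.1 hj
        omega
      · have : 0 < 2 ^ k := by positivity
        omega
  have h2 : p.coeff i = b i := by
    rw [hp, Polynomial.finsetSum_coeff]
    simp only [Polynomial.coeff_monomial]
    rw [Finset.sum_ite_eq' (range (2 ^ k)) i b, if_pos (Finset.mem_range.2 hi)]
  rw [← h2, h1, Polynomial.coeff_zero]

/-- the partner index -/
lemma part {n i j : ℕ} (hi : i < n) (hj : j < n) : ((i + j) % n + n - i) % n = j := by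
  rcases Nat.lt_or_ge (i + j) n with h | h
  · rw [Nat.mod_eq_of_lt h]
    have : i + j + n - i = j + n := by omega
    rw [this, Nat.add_mod_right, Nat.mod_eq_of_lt hj]
  · have h1 : (i + j) % n = i + j - n := by
      rw [Nat.mod_eq_sub_mod h, Nat.mod_eq_of_lt (by omega)]
    rw [h1]
    have : i + j - n + n - i = j := by omega
    rw [this, Nat.mod_eq_of_lt hj]

lemma part2 {n t i : ℕ} (ht : t < n) (hi : i < n) : (i + (t + n - i) % n) % n = t := by
  rw [Nat.add_mod_mod]
  have : i + (t + n - i) = t + n := by omega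
  rw [this, Nat.add_mod_right, Nat.mod_eq_of_lt ht]

/-- the index set -/
def II (k t : ℕ) : Finset ℕ :=
  (range (2 ^ k - 1)).filter (fun i => wt i + wt ((t + (2 ^ k - 1) - i) % (2 ^ k - 1)) ≤ k - 1)

lemma II_zero {k : ℕ} (hk : 2 ≤ k) : II k 0 ⊆ {0} := by
  intro i hi
  obtain ⟨h1, h2⟩ := Finset.mem_filter.1 hi
  rw [Finset.mem_range] at h1
  rw [Finset.mem_singleton]
  by_contra h0
  have h3 : (0 + (2 ^ k - 1) - i) % (2 ^ k - 1) = 2 ^ k - 1 - i := by
    rw [Nat.zero_add, Nat.mod_eq_of_lt (by omega)]
  rw [h3, wt_compl k i (by omega)] at h2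
  omega

lemma II_card {k t : ℕ} (hk : 2 ≤ k) (hT : TuDeng k) (ht : t < 2 ^ k - 1) :
    (II k t).card ≤ 2 ^ (k - 1) := by
  rcases Nat.eq_zero_or_pos t with rfl | h0
  · refine (Finset.card_le_card (II_zero hk)).trans ?_
    rw [Finset.card_singleton]
    exact Nat.one_le_two_pow
  · refine le_trans ?_ (hT t h0 ht)
    refine Finset.card_le_card_of_injOn
      (fun i => (i, (t + (2 ^ k - 1) - i) % (2 ^ k - 1))) ?_ ?_
    · intro i hi
      obtain ⟨h1, h2⟩ := Finset.mem_filter.1 hi
      rw [Finset.mem_range] at h1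
      simp only [Finset.coe_filter, Finset.mem_product, Finset.mem_range, Set.mem_ofPred_eq]
      exact ⟨⟨h1, Nat.mod_lt _ (by omega)⟩, part2 ht h1, h2⟩
    · intro i _ j _ h
      exact congrArg Prod.fst h

theorem t_noann : T_NOANN := by
  intro hV hC k F _ _ a c hk hT hq ha hinj hc
  have hn : 3 ≤ 2 ^ k - 1 := by
    have : 2 ^ 2 ≤ 2 ^ k := Nat.pow_le_pow_right (by norm_num) hk
    omega
  have hc' : ∀ i j, (i = 2 ^ k - 1 ∨ j = 2 ^ k - 1) → c i j = 0 := by
    rintro i j (h | h)
    · apply hc
      rw [h, wt_full]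
      omega
    · apply hc
      rw [h, wt_full]
      omega
  -- the sum over the index set
  have hsum : ∀ (t : ℕ) (γ : F), (∀ y : F, y ≠ 0 → P k c (γ * y) y = 0) → t < 2 ^ k - 1 →
      ∑ i ∈ II k t, c i ((t + (2 ^ k - 1) - i) % (2 ^ k - 1)) * γ ^ i = 0 := by
    intro t γ hγ ht
    rw [← hC k F c γ (by omega) hq hc' hγ t ht]
    unfold II
    rw [Finset.sum_filter]
    refine Finset.sum_congr rfl fun i _ => ?_
    split_ifs with h
    · rfl
    · rw [hc _ _ (by omega), zero_mul]
  -- from the index sets to all coefficients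
  have hall : (∀ t < 2 ^ k - 1, ∀ i ∈ II k t, c i ((t + (2 ^ k - 1) - i) % (2 ^ k - 1)) = 0) →
      ∀ x y : F, P k c x y = 0 := by
    intro h x y
    unfold P
    refine Finset.sum_eq_zero fun i hi => Finset.sum_eq_zero fun j hj => ?_
    rw [Finset.mem_range] at hi hj
    have h0 : c i j = 0 := by
      by_cases h1 : i = 2 ^ k - 1 ∨ j = 2 ^ k - 1
      · exact hc' i j h1
      · push Not at h1
        have hi' : i < 2 ^ k - 1 := by omega
        have hj' : j < 2 ^ k - 1 := by omega
        by_cases h2 : k ≤ wt i + wt j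
        · exact hc i j h2
        · have h3 := h ((i + j) % (2 ^ k - 1)) (Nat.mod_lt _ (by omega)) i
          rw [part hi' hj'] at h3
          apply h3
          unfold II
          rw [Finset.mem_filter, part hi' hj', Finset.mem_range]
          exact ⟨hi', by omega⟩
    rw [h0, zero_mul, zero_mul]
  have hinj' : ∀ I : Finset ℕ, (∀ i ∈ I, i < 2 ^ k - 1) → ∀ i ∈ I, ∀ j ∈ I, a ^ i = a ^ j → i = j :=
    fun I hI i hi j hj h => hinj i (hI i hi) j (hI j hj) h
  have hII : ∀ t, ∀ i ∈ II k t, i < 2 ^ k - 1 := fun t i hi =>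
    Finset.mem_range.1 (Finset.mem_filter.1 hi).1
  constructor
  · intro h1
    apply hall
    intro t ht
    refine hV F a (II k t) (fun i => c i ((t + (2 ^ k - 1) - i) % (2 ^ k - 1))) 0 ha
      (hinj' _ (hII t)) ?_
    intro s _ hs
    have := II_card hk hT ht
    exact hsum t (a ^ s) (h1 s (by omega)) ht
  · intro h1 h2 h3
    have e1 : ∀ i < 2 ^ k, c i 0 = 0 := by
      apply poly_zero hq
      intro x
      rw [← h2 x]
      unfold P
      refine Finset.sum_congr rfl fun i _ => ?_
      rw [Finset.sum_eq_single 0]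
      · simp
      · intro j _ hj
        rw [zero_pow hj, mul_zero]
      · intro h
        exact absurd (Finset.mem_range.2 (by positivity)) h
    have e2 : ∀ j < 2 ^ k, c 0 j = 0 := by
      apply poly_zero hq
      intro y
      have h4 : P k c 0 y = ∑ j ∈ range (2 ^ k), c 0 j * y ^ j := by
        unfold P
        rw [Finset.sum_eq_single 0]
        · refine Finset.sum_congr rfl fun j _ => ?_
          rw [pow_zero, mul_one]
        · intro i _ hi
          refine Finset.sum_eq_zero fun j _ => ?_
          rw [zero_pow hi, mul_zero, zero_mul]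
        · intro h
          exact absurd (Finset.mem_range.2 (by positivity)) h
      rw [← h4]
      exact h3 y
    apply hall
    intro t ht
    have f1 : (t + (2 ^ k - 1) - 0) % (2 ^ k - 1) = t := by
      rw [Nat.sub_zero, Nat.add_mod_right, Nat.mod_eq_of_lt ht]
    have f2 : (t + (2 ^ k - 1) - t) % (2 ^ k - 1) = 0 := by
      rw [Nat.add_sub_cancel_left, Nat.mod_self]
    have g1 : c 0 ((t + (2 ^ k - 1) - 0) % (2 ^ k - 1)) = 0 := by
      rw [f1]; exact e2 t (by omega)
    have g2 : c t ((t + (2 ^ k - 1) - t) % (2 ^ k - 1)) = 0 := by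
      rw [f2]; exact e1 t (by omega)
    have hcard : ((II k t).erase 0 |>.erase t).card + 2 ≤ 2 ^ (k - 1) := by
      rcases Nat.eq_zero_or_pos t with rfl | h0
      · have h4 : ((II k 0).erase 0 |>.erase 0) = ∅ := by
          apply Finset.eq_empty_of_forall_notMem
          intro i hi
          rw [Finset.mem_erase, Finset.mem_erase] at hi
          exact hi.1 (Finset.mem_singleton.1 (II_zero hk hi.2.2))
        rw [h4, Finset.card_empty]
        have : 2 ^ 1 ≤ 2 ^ (k - 1) := Nat.pow_le_pow_right (by norm_num) (by omega)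
        omega
      · have hw := wt_lt ht
        have m1 : 0 ∈ II k t := by
          unfold II
          rw [Finset.mem_filter, Finset.mem_range, f1, wt_zero]
          exact ⟨by omega, by omega⟩
        have m2 : t ∈ (II k t).erase 0 := by
          unfold II
          rw [Finset.mem_erase, Finset.mem_filter, Finset.mem_range, f2, wt_zero]
          exact ⟨by omega, ht, by omega⟩
        have h4 := II_card hk hT ht
        have h5 := Finset.card_erase_add_one m1
        have h6 := Finset.card_erase_add_one m2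
        omega
    have hzero : ∀ i ∈ ((II k t).erase 0 |>.erase t),
        c i ((t + (2 ^ k - 1) - i) % (2 ^ k - 1)) = 0 := by
      refine hV F a _ (fun i => c i ((t + (2 ^ k - 1) - i) % (2 ^ k - 1))) (2 ^ (k - 1)) ha
        (hinj' _ fun i hi => hII t i (Finset.mem_of_mem_erase (Finset.mem_of_mem_erase hi))) ?_
      intro s hs1 hs2
      have hs : s < 2 ^ k - 1 := by
        have : 2 ^ k = 2 ^ (k - 1) * 2 := by
          rw [← pow_succ]
          congr 1
          omega
        omega
      have h5 := hsum t (a ^ s) (h1 s hs1 hs) ht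
      rw [← h5]
      refine Finset.sum_subset (fun i hi => Finset.mem_of_mem_erase (Finset.mem_of_mem_erase hi)) ?_
      intro i hi hn'
      have : i = t ∨ i = 0 := by
        by_contra hcon
        push Not at hcon
        exact hn' (Finset.mem_erase.2 ⟨hcon.1, Finset.mem_erase.2 ⟨hcon.2, hi⟩⟩)
      rcases this with rfl | rfl
      · rw [g2, zero_mul]
      · rw [g1, zero_mul]
    intro i hi
    by_cases h5 : i = t
    · rw [h5]; exact g2
    by_cases h6 : i = 0
    · rw [h6]; exact g1
    · exact hzero i (Finset.mem_erase.2 ⟨h5, Finset.mem_erase.2 ⟨h6, hi⟩⟩)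

end Pool.Agent.W357.TD
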